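import Pool.Agent.NDR.StmtsM

/-!
# Squad NDL, row DGR (helper90): the degree argument over the reals
-/

set_option autoImplicit false

namespace Pool.Agent.NDR.H90

open Finset

theorem int_ge_oneR {x : ℝ} (hz : ∃ z : ℤ, x = z) (h0 : 0 ≤ x) (hne : x ≠ 0) : 1 ≤ x := by
  obtain ⟨z, rfl⟩ := hz
  have h1 : (0 : ℤ) ≤ z := by exact_mod_cast h0
  have h2 : z ≠ 0 := by
    intro h
    apply hne
    rw [h]
    simp
  have h3 : (1 : ℤ) ≤ z := by omega
  exact_mod_cast h3

theorem int_ge_twoR {x : ℝ} (hz : ∃ z : ℤ, x = z) (h0 : 1 ≤ x) (hne : x ≠ 1) : 2 ≤ x := by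
  obtain ⟨z, rfl⟩ := hz
  have h1 : (1 : ℤ) ≤ z := by exact_mod_cast h0
  have h2 : z ≠ 1 := by
    intro h
    apply hne
    rw [h]
    simp
  have h3 : (2 : ℤ) ≤ z := by omega
  exact_mod_cast h3

theorem dgr : DgrStmt := by
  classical
  intro σ _ A I y μ hY h1 hgap1 hgap2 k hk
  refine ⟨?_, ?_⟩
  · intro q ν hν hq hsum hint hge
    set S : ℝ := ∑ a ∈ A, μ a - ∑ i, (y i : ℝ) with hS
    have hynn : ∀ i, (0 : ℝ) ≤ (y i : ℝ) := fun i => by exact_mod_cast hY.nn i
    -- the pairing of `y` and `q`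
    have hyq : ∑ i, (y i : ℝ) * q i ≤ ∑ a ∈ A, ν a := by
      have h2 : ∑ i, (y i : ℝ) * q i = ∑ a ∈ A, ν a * (dq y a : ℝ) := by
        have h3 : ∀ i, (y i : ℝ) * q i = ∑ a ∈ A, ν a * ((y i : ℝ) * (a i : ℝ)) := by
          intro i
          by_cases hi : i ∈ I
          · rw [hq i hi]
            unfold cmbR
            rw [Finset.mul_sum]
            refine Finset.sum_congr rfl fun a _ => ?_
            ring
          · rw [hY.off i hi]
            simp
        calc ∑ i, (y i : ℝ) * q i = ∑ i, ∑ a ∈ A, ν a * ((y i : ℝ) * (a i : ℝ)) :=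
              Finset.sum_congr rfl fun i _ => h3 i
          _ = ∑ a ∈ A, ∑ i, ν a * ((y i : ℝ) * (a i : ℝ)) := Finset.sum_comm
          _ = ∑ a ∈ A, ν a * (dq y a : ℝ) := by
              refine Finset.sum_congr rfl fun a _ => ?_
              unfold dq
              push_cast
              rw [Finset.mul_sum]
      rw [h2]
      refine Finset.sum_le_sum fun a ha => ?_
      have h3 : ((dq y a : ℚ) : ℝ) ≤ 1 := by exact_mod_cast hY.le a ha
      have h4 := hν a ha
      nlinarith
    have hqk : 0 ≤ q k := by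
      rw [hq k hk]
      unfold cmbR
      exact Finset.sum_nonneg fun a ha => mul_nonneg (hν a ha) (by positivity)
    have hmain : ∑ i, (y i : ℝ) * (q i - 1) ≤ S - 1 := by
      have h2 : ∑ i, (y i : ℝ) * (q i - 1) = ∑ i, (y i : ℝ) * q i - ∑ i, (y i : ℝ) := by
        rw [← Finset.sum_sub_distrib]
        refine Finset.sum_congr rfl fun i _ => ?_
        ring
      rw [h2, hS]
      linarith
    have hterm : ∀ i, i ≠ k → 0 ≤ (y i : ℝ) * (q i - 1) := by
      intro i hi
      rcases (hY.nn i).lt_or_eq with h | h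
      · have h2 := hge i h hi
        exact mul_nonneg (hynn i) (by linarith)
      · rw [← h]
        simp
    have hsplit : ∑ i, (y i : ℝ) * (q i - 1) = (y k : ℝ) * (q k - 1) +
        ∑ i ∈ Finset.univ.erase k, (y i : ℝ) * (q i - 1) :=
      (Finset.add_sum_erase _ _ (Finset.mem_univ k)).symm
    have hrest : 0 ≤ ∑ i ∈ Finset.univ.erase k, (y i : ℝ) * (q i - 1) :=
      Finset.sum_nonneg fun i hi => hterm i (Finset.ne_of_mem_erase hi)
    have hyk : y k = 1 := by
      by_contra hne
      have hlt : y k < 1 := lt_of_le_of_ne (h1 k) hne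
      have hg := hgap1 k hk hlt
      have h2 : 0 ≤ (y k : ℝ) * q k := mul_nonneg (hynn k) hqk
      have h3 : (y k : ℝ) * (q k - 1) = (y k : ℝ) * q k - (y k : ℝ) := by ring
      rw [hsplit] at hmain
      linarith
    have hykR : (y k : ℝ) = 1 := by rw [hyk]; norm_num
    have hykpos : 0 < y k := by rw [hyk]; norm_num
    refine ⟨hyk, ?_, ?_⟩
    · by_contra hne
      have h2 : 1 ≤ q k := int_ge_oneR (hint k hykpos) hqk hne
      have hg := hgap2 k hykpos
      rw [hsplit, hykR] at hmain
      rw [hykR] at hg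
      linarith
    · intro i hi hik
      by_contra hne
      have h2 : 2 ≤ q i := int_ge_twoR (hint i hi) (hge i hi hik) hne
      have hg := hgap2 i hi
      have hiR : (0 : ℝ) < (y i : ℝ) := by exact_mod_cast hi
      have hi2 : (y i : ℝ) * (q i - 1) ≤ ∑ j ∈ Finset.univ.erase k, (y j : ℝ) * (q j - 1) :=
        Finset.single_le_sum (f := fun j => (y j : ℝ) * (q j - 1))
          (fun j hj => hterm j (Finset.ne_of_mem_erase hj))
          (Finset.mem_erase.mpr ⟨hik, Finset.mem_univ i⟩)
      have h3 : (y i : ℝ) ≤ (y i : ℝ) * (q i - 1) := by nlinarith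
      rw [hsplit, hykR] at hmain
      linarith
  · intro hyk a ha hak
    have hle := hY.le a ha
    have hynn := hY.nn
    unfold dq at hle
    have hnn : ∀ i, 0 ≤ y i * (a i : ℚ) := fun i => mul_nonneg (hynn i) (by positivity)
    have hsplit : ∑ i, y i * (a i : ℚ) = y k * (a k : ℚ) + ∑ i ∈ Finset.univ.erase k,
        y i * (a i : ℚ) := (Finset.add_sum_erase _ _ (Finset.mem_univ k)).symm
    have hrest : 0 ≤ ∑ i ∈ Finset.univ.erase k, y i * (a i : ℚ) :=
      Finset.sum_nonneg fun i _ => hnn i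
    have hak1 : (1 : ℚ) ≤ (a k : ℚ) := by
      have : 1 ≤ a k := Nat.one_le_iff_ne_zero.mpr hak
      exact_mod_cast this
    rw [hsplit, hyk] at hle
    have hakle : (a k : ℚ) ≤ 1 := by linarith
    refine ⟨?_, ?_⟩
    · have : (a k : ℚ) = 1 := le_antisymm hakle hak1
      exact_mod_cast this
    · intro i hi hik
      have hi2 : y i * (a i : ℚ) ≤ ∑ j ∈ Finset.univ.erase k, y j * (a j : ℚ) :=
        Finset.single_le_sum (f := fun j => y j * (a j : ℚ)) (fun j _ => hnn j)
          (Finset.mem_erase.mpr ⟨hik, Finset.mem_univ i⟩)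
      have h0 : y i * (a i : ℚ) ≤ 0 := by linarith
      have h3 : (a i : ℚ) ≤ 0 := by
        by_contra hpos
        rw [not_le] at hpos
        have := mul_pos hi hpos
        linarith
      have h4 : (a i : ℚ) = 0 := le_antisymm h3 (by positivity)
      exact_mod_cast h4

end Pool.Agent.NDR.H90
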